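import Pool.Agent.H4.SE.Targets

/-!
# Board sae, module EM: monotonicity of the entropy
-/

set_option autoImplicit false

open Finset Equiv
open scoped Classical
open Pool.Agent.H4.SE

namespace Pool.Agent.H33.SAE

theorem fib_pos {Ω α : Type} [Fintype Ω] (f : Ω → α) (x : Ω) : 0 < fib f x :=
  card_pos.2 ⟨x, mem_filter.2 ⟨mem_univ _, rfl⟩⟩

theorem pf_EM : T_EM := by
  intro Ω α α' _ f g h
  unfold ent
  apply div_le_div_of_nonneg_right _ (Nat.cast_nonneg _)
  apply Finset.sum_le_sum
  intro x _
  have h1 : fib f x ≤ fib g x := card_le_card (fun y hy => by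
    rw [mem_filter] at hy ⊢
    exact ⟨hy.1, h y x hy.2⟩)
  have h2 : (0 : ℝ) < fib f x := by exact_mod_cast fib_pos f x
  have h3 : Real.log (fib f x) ≤ Real.log (fib g x) := Real.log_le_log h2 (by exact_mod_cast h1)
  linarith

end Pool.Agent.H33.SAE
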