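import Pool.Agent.H4.SE.Targets

/-!
# Board sae, module EP: maps with fibres of constant size
-/

set_option autoImplicit false

open Finset Equiv
open scoped Classical
open Pool.Agent.H4.SE

namespace Pool.Agent.H33.SAE

theorem pf_EP : T_EP := by
  intro Ω Ω' α _ _ π c hc hπ f
  -- number of points of preimages
  have key : ∀ P : Ω → Prop, (univ.filter fun y => P (π y)).card =
      (univ.filter fun x => P x).card * c := by
    intro P
    rw [card_eq_sum_card_fiberwise (f := π) (t := univ.filter fun x => P x) (fun y hy => by
      simp only [coe_filter, mem_univ, true_and, Set.mem_ofPred_eq] at hy ⊢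
      exact hy)]
    rw [sum_const_nat (m := c)]
    intro x hx
    rw [← hπ x]
    refine congrArg card ?_
    ext y
    simp only [mem_filter, mem_univ, true_and] at hx ⊢
    exact ⟨fun h => h.2, fun h => ⟨by rw [h]; exact hx, h⟩⟩
  have hcard : Fintype.card Ω' = Fintype.card Ω * c := by
    have h := key fun _ => True
    simp only [filter_true] at h
    exact h
  have hfib : ∀ y, fib (fun y => f (π y)) y = fib f (π y) * c := fun y =>
    key fun x => f x = f (π y)
  have hsum : ∀ F : Ω → ℝ, ∑ y, F (π y) = c * ∑ x, F x := by
    intro F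
    rw [← sum_fiberwise (univ : Finset Ω') π fun y => F (π y), mul_sum]
    refine sum_congr rfl fun x _ => ?_
    rw [sum_congr rfl (g := fun _ => F x) (fun y hy => by rw [(mem_filter.1 hy).2]), sum_const,
      hπ x, nsmul_eq_mul]
  unfold ent
  rcases isEmpty_or_nonempty Ω with hE | hE
  · have h0 : Fintype.card Ω = 0 := Fintype.card_eq_zero
    rw [hcard, h0]
    simp
  · have hN : (0 : ℝ) < Fintype.card Ω := by exact_mod_cast Fintype.card_pos
    have hc' : (0 : ℝ) < c := by exact_mod_cast hc
    have hterm : ∀ y, Real.log (Fintype.card Ω') - Real.log (fib (fun y => f (π y)) y) =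
        Real.log (Fintype.card Ω) - Real.log (fib f (π y)) := by
      intro y
      have hf : (0 : ℝ) < fib f (π y) := by
        have : 0 < fib f (π y) := card_pos.2 ⟨π y, mem_filter.2 ⟨mem_univ _, rfl⟩⟩
        exact_mod_cast this
      rw [hcard, hfib, Nat.cast_mul, Nat.cast_mul, Real.log_mul hN.ne' hc'.ne',
        Real.log_mul hf.ne' hc'.ne']
      ring
    rw [sum_congr rfl fun y _ => hterm y,
      hsum fun x => Real.log (Fintype.card Ω) - Real.log (fib f x), hcard, Nat.cast_mul]
    rw [mul_comm (Fintype.card Ω : ℝ) c, mul_div_mul_left _ _ hc'.ne']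

end Pool.Agent.H33.SAE
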