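import Pool.Agent.H4.SE.Targets

/-!
# Board sae, module ES: submodularity of the entropy
-/

set_option autoImplicit false

open Finset Equiv
open scoped Classical
open Pool.Agent.H4.SE

namespace Pool.Agent.H33.SAE

theorem fib_pos' {Ω α : Type} [Fintype Ω] (f : Ω → α) (x : Ω) : (0 : ℝ) < fib f x := by
  have : 0 < fib f x := card_pos.2 ⟨x, mem_filter.2 ⟨mem_univ _, rfl⟩⟩
  exact_mod_cast this

theorem fib_sum {Ω α : Type} [Fintype Ω] (f : Ω → α) (x : Ω) :
    (fib f x : ℝ) = ∑ u, if f u = f x then (1 : ℝ) else 0 := by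
  unfold fib
  rw [card_filter]
  push_cast
  rfl

theorem fib_eq {Ω α : Type} [Fintype Ω] (f : Ω → α) {x y : Ω} (h : f x = f y) :
    fib f x = fib f y := by
  unfold fib
  rw [h]

/-- submodularity: `F` determines `A` and `B`, each of these determines `h` -/
theorem es_aux {Ω α β δ γ : Type} [Fintype Ω] (A : Ω → α) (B : Ω → β) (F : Ω → δ) (h : Ω → γ)
    (hF : ∀ x y, F x = F y ↔ A x = A y ∧ B x = B y) (hA : ∀ x y, A x = A y → h x = h y)
    (hB : ∀ x y, B x = B y → h x = h y) : ent F + ent h ≤ ent A + ent B := by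
  -- the main estimate
  have key : ∀ u v, ∑ x, (if A u = A x then (1 : ℝ) else 0) * (if B v = B x then (1 : ℝ) else 0) /
      (fib F x * fib h x) ≤ (if h v = h u then (1 : ℝ) else 0) / fib h u := by
    intro u v
    by_cases hx : ∃ x, A u = A x ∧ B v = B x
    · obtain ⟨x0, h1, h2⟩ := hx
      have e1 : ∀ x, (if A u = A x then (1 : ℝ) else 0) * (if B v = B x then (1 : ℝ) else 0) /
          (fib F x * fib h x) = if F x = F x0 then 1 / ((fib F x0 : ℝ) * fib h u) else 0 := by
        intro x
        by_cases hxx : F x = F x0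
        · have h3 := (hF x x0).1 hxx
          have a1 : A u = A x := h1.trans h3.1.symm
          have a2 : B v = B x := h2.trans h3.2.symm
          have a3 : fib h x = fib h u := fib_eq h (hA u x a1).symm
          rw [if_pos a1, if_pos a2, if_pos hxx, fib_eq F hxx, a3, one_mul]
        · rw [if_neg hxx]
          by_cases a1 : A u = A x
          · by_cases a2 : B v = B x
            · exact absurd ((hF x x0).2 ⟨a1.symm.trans h1, a2.symm.trans h2⟩) hxx
            · rw [if_neg a2, mul_zero, zero_div]
          · rw [if_neg a1, zero_mul, zero_div]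
      rw [sum_congr rfl fun x _ => e1 x,
        if_pos ((hB v x0 h2).trans (hA u x0 h1).symm), ← sum_filter, sum_const, nsmul_eq_mul]
      have h5 : ((univ.filter fun x => F x = F x0).card : ℝ) = fib F x0 := rfl
      have h6 := (fib_pos' F x0).ne'
      have h7 := (fib_pos' h u).ne'
      rw [h5]
      apply le_of_eq
      field_simp
    · rw [sum_eq_zero]
      · apply div_nonneg _ (Nat.cast_nonneg _)
        split_ifs
        · exact zero_le_one
        · exact le_rfl
      · intro x _
        by_cases a1 : A u = A x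
        · by_cases a2 : B v = B x
          · exact absurd ⟨x, a1, a2⟩ hx
          · rw [if_neg a2, mul_zero, zero_div]
        · rw [if_neg a1, zero_mul, zero_div]
  have hy : ∀ x, (fib A x : ℝ) * fib B x / (fib F x * fib h x) = ∑ u, ∑ v,
      (if A u = A x then (1 : ℝ) else 0) * (if B v = B x then (1 : ℝ) else 0) /
      (fib F x * fib h x) := by
    intro x
    rw [fib_sum A x, fib_sum B x, sum_mul_sum, sum_div]
    refine sum_congr rfl fun u _ => ?_
    rw [sum_div]
  have hle : ∑ x, (fib A x : ℝ) * fib B x / (fib F x * fib h x) ≤ Fintype.card Ω := by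
    rw [sum_congr rfl fun x _ => hy x, sum_comm]
    have h1 : ∀ u, ∑ x, ∑ v, (if A u = A x then (1 : ℝ) else 0) *
        (if B v = B x then (1 : ℝ) else 0) / (fib F x * fib h x) ≤ 1 := by
      intro u
      rw [sum_comm]
      refine (sum_le_sum fun v _ => key u v).trans ?_
      rw [← sum_div, ← fib_sum h u, div_self (fib_pos' h u).ne']
    refine (sum_le_sum fun u _ => h1 u).trans ?_
    rw [sum_const, nsmul_eq_mul, mul_one]
    exact le_rfl
  have hlog : ∀ x, Real.log (fib A x) + Real.log (fib B x) - Real.log (fib F x) -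
      Real.log (fib h x) ≤ (fib A x : ℝ) * fib B x / (fib F x * fib h x) - 1 := by
    intro x
    have p1 := fib_pos' A x
    have p2 := fib_pos' B x
    have p3 := fib_pos' F x
    have p4 := fib_pos' h x
    have h1 : Real.log ((fib A x : ℝ) * fib B x / (fib F x * fib h x)) =
        Real.log (fib A x) + Real.log (fib B x) - Real.log (fib F x) - Real.log (fib h x) := by
      rw [Real.log_div (mul_pos p1 p2).ne' (mul_pos p3 p4).ne', Real.log_mul p1.ne' p2.ne',
        Real.log_mul p3.ne' p4.ne']
      ring
    rw [← h1]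
    exact Real.log_le_sub_one_of_pos (div_pos (mul_pos p1 p2) (mul_pos p3 p4))
  have hS : ∑ x, (Real.log (fib A x) + Real.log (fib B x) - Real.log (fib F x) -
      Real.log (fib h x)) ≤ 0 := by
    refine (sum_le_sum fun x _ => hlog x).trans ?_
    rw [sum_sub_distrib, sum_const, nsmul_eq_mul, mul_one]
    have : ((univ : Finset Ω).card : ℝ) = Fintype.card Ω := rfl
    rw [this]
    linarith
  unfold ent
  rw [← add_div, ← add_div]
  apply div_le_div_of_nonneg_right _ (Nat.cast_nonneg _)
  rw [← sum_add_distrib, ← sum_add_distrib, ← sub_nonpos, ← sum_sub_distrib]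
  refine le_trans (le_of_eq (sum_congr rfl fun x _ => ?_)) hS
  ring

theorem pf_ES : T_ES := by
  intro Ω α β γ _ f g h
  refine es_aux (fun x => (f x, h x)) (fun x => (g x, h x)) (fun x => (f x, g x, h x)) h ?_ ?_ ?_
  · intro x y
    constructor
    · intro e
      have h1 := Prod.mk.inj e
      have h2 := Prod.mk.inj h1.2
      exact ⟨Prod.ext h1.1 h2.2, Prod.ext h2.1 h2.2⟩
    · rintro ⟨e1, e2⟩
      have h1 := Prod.mk.inj e1
      have h2 := Prod.mk.inj e2
      exact Prod.ext h1.1 (Prod.ext h2.1 h2.2)
  · intro x y e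
    exact (Prod.mk.inj e).2
  · intro x y e
    exact (Prod.mk.inj e).2

end Pool.Agent.H33.SAE
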